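import Pool.Agent.Helper924_BV.Pub
import Pool.Agent.Helper924_BV.Log
import Pool.Agent.Helper924_BV.Gen
import Pool.Agent.Helper924_BV.Norm
import Pool.Agent.Helper924_BV.Num

/-! # A lower bound for the Hausdorff volume of balls dominating Euclidean boundary distances

Up to a factor `(C log n)^n` the Euclidean ball is optimal among all metrics. (Comparison with the maps into the cube given by
`n` coordinate functions only yields the factor `n^{n/2} C^n`.)

Idea of the proof. For every sign vector `ε` let `f_ε` be a `1`-Lipschitz extension of `x ↦ ⟨ε, x⟩ / √n` from the sphere. The map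
`√n 𝔼_ε [f_ε ε]` is the identity on the sphere, so it covers the ball. At almost every point its derivative `T` maps the unit ball
`B` of the tangent norm to a convex body whose support function, averaged over the sign vectors, is bounded by the norm of a
Rademacher projection, which is at most `4 ⌈log₂ n⌉` (Bernstein inequality at the origin for the polynomials `ρ ↦ T_ρ`, and
Auerbach's lemma for the tail). By symmetrization (Brunn-Minkowski) the volume of the image of `B` is at most
`(8 √n ⌈log₂ n⌉)^n / n!`. The isodiametric inequality for norms and a decomposition into pieces on which all `f_ε` are almost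
linear turn this into a comparison of the volume of the image with the Hausdorff measure. The purely unrectifiable part of the
image of the metric space under the map `(f_ε)_ε` is sent to a null set by almost all linear maps (Besicovitch-Federer
projection theorem, proved in `Pool.Agent.Helper924_BF`), so it does not contribute after a small perturbation. -/

open MeasureTheory Metric Set
open scoped ENNReal NNReal

namespace Pool.Agent.Results.MP_8115c2_gt.LogBoundAllMetrics

open Pool.Agent.Helper924_BV

/-- **Main result.** Let `n ≥ 2` and let `X` be a metric space homeomorphic to the closed unit ball by `h` (that is, a metric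
on the ball inducing the standard topology) whose metric dominates the Euclidean distance on the boundary sphere. Then the
`n`-dimensional Hausdorff measure of `X`, normalised as Lebesgue measure on `ℝⁿ`, is at least
`n! ω_n ^ 2 / (8 √n ⌈log₂ n⌉) ^ n`, which is at least `ω_n / (8 ⌈log₂ n⌉) ^ n`. -/
theorem result (n : ℕ) (hn : 2 ≤ n) (X : Type) [MetricSpace X] [MeasurableSpace X] [BorelSpace X]
    (h : closedBall (0 : EuclideanSpace ℝ (Fin n)) 1 ≃ₜ X) (hd : DominatesOnSphere h) :
    ENNReal.ofReal (1 / (8 * (Nat.clog 2 n : ℝ)) ^ n) * volume (closedBall (0 : EuclideanSpace ℝ (Fin n)) 1) ≤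
        ENNReal.ofReal ((n.factorial : ℝ) / (8 * Real.sqrt n * (Nat.clog 2 n : ℝ)) ^ n) *
          volume (closedBall (0 : EuclideanSpace ℝ (Fin n)) 1) ^ 2 ∧
      ENNReal.ofReal ((n.factorial : ℝ) / (8 * Real.sqrt n * (Nat.clog 2 n : ℝ)) ^ n) *
          volume (closedBall (0 : EuclideanSpace ℝ (Fin n)) 1) ^ 2 ≤ μHE[n] (univ : Set X) := by
  have hn0 : 0 < n := by omega
  have hm : 0 < Nat.clog 2 n := Nat.clog_pos (by norm_num) hn
  have hmr : (0 : ℝ) < Nat.clog 2 n := by exact_mod_cast hm
  have hs : (0 : ℝ) < Real.sqrt n := Real.sqrt_pos.2 (by exact_mod_cast hn0)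
  set ω : ℝ≥0∞ := volume (closedBall (0 : EuclideanSpace ℝ (Fin n)) 1) with hω
  have hω0 : ω ≠ 0 := (measure_closedBall_pos _ _ one_pos).ne'
  have hωt : ω ≠ ∞ := measure_closedBall_lt_top.ne
  constructor
  · have h1 := num_bound n
    rw [← hω] at h1
    rw [sq, ← mul_assoc]
    gcongr
    rw [← ENNReal.ofReal_toReal hωt, ← ENNReal.ofReal_mul (by positivity)]
    apply ENNReal.ofReal_le_ofReal
    rw [div_mul_eq_mul_div, div_le_div_iff₀ (by positivity) (by positivity), one_mul]
    calc (8 * Real.sqrt n * (Nat.clog 2 n : ℝ)) ^ n = Real.sqrt n ^ n * (8 * (Nat.clog 2 n : ℝ)) ^ n := by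
          rw [← mul_pow]; ring
      _ ≤ (n.factorial * ω.toReal) * (8 * (Nat.clog 2 n : ℝ)) ^ n := by gcongr
  · have h1 := master_all hn0 (fun _ : Unit => (1 : ℝ≥0)) (fun _ : Unit => signAvg n) _
      (det_bound_sign hm (Nat.le_pow_clog (by norm_num) n)) (signLabel n) signLabel_norm h hd
    simp only [Finset.univ_unique, Finset.sum_singleton, ENNReal.coe_one, one_mul] at h1
    rw [det_signAvg_signLabel hn0, ← hω] at h1
    have h2 := muHE_ge hn0 (univ : Set X)
    rw [← hω] at h2
    refine le_trans ?_ h2
    -- `μH ≥ 2^n ω (1/√n)^n / M`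
    set M : ℝ := (8 * (Nat.clog 2 n : ℝ)) ^ n / n.factorial with hM
    have hMpos : 0 < M := by positivity
    have h3 : ENNReal.ofReal ((1 / Real.sqrt n) ^ n / M) * ω * 2 ^ n ≤ μH[(n : ℝ)] (univ : Set X) := by
      have h4 : ENNReal.ofReal ((1 / Real.sqrt n) ^ n) * ω * 2 ^ n ≤
          ENNReal.ofReal M * μH[(n : ℝ)] (univ : Set X) := by
        calc ENNReal.ofReal ((1 / Real.sqrt n) ^ n) * ω * 2 ^ n
            ≤ ((M.toNNReal : ℝ≥0) : ℝ≥0∞) * (1 / 2 ^ n) * μH[(n : ℝ)] (univ : Set X) * 2 ^ n := by gcongr
          _ = ENNReal.ofReal M * μH[(n : ℝ)] (univ : Set X) * ((1 / 2 ^ n) * 2 ^ n) := by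
              rw [ENNReal.ofReal]; ring
          _ = _ := by
              rw [one_div, ENNReal.inv_mul_cancel (by positivity) (by finiteness), mul_one]
      rw [ENNReal.ofReal_div_of_pos hMpos, div_eq_mul_inv]
      calc ENNReal.ofReal ((1 / Real.sqrt n) ^ n) * (ENNReal.ofReal M)⁻¹ * ω * 2 ^ n
          = (ENNReal.ofReal M)⁻¹ * (ENNReal.ofReal ((1 / Real.sqrt n) ^ n) * ω * 2 ^ n) := by ring
        _ ≤ (ENNReal.ofReal M)⁻¹ * (ENNReal.ofReal M * μH[(n : ℝ)] (univ : Set X)) := by gcongr
        _ = μH[(n : ℝ)] (univ : Set X) := by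
            rw [← mul_assoc, ENNReal.inv_mul_cancel (by simpa using hMpos) ENNReal.ofReal_ne_top, one_mul]
    calc ENNReal.ofReal ((n.factorial : ℝ) / (8 * Real.sqrt n * (Nat.clog 2 n : ℝ)) ^ n) * ω ^ 2
        = ω / 2 ^ n * (ENNReal.ofReal ((1 / Real.sqrt n) ^ n / M) * ω * 2 ^ n) := by
          have h5 : (n.factorial : ℝ) / (8 * Real.sqrt n * (Nat.clog 2 n : ℝ)) ^ n = (1 / Real.sqrt n) ^ n / M := by
            rw [hM, one_div_pow, mul_pow, mul_pow, mul_pow]
            field_simp
          rw [h5, ENNReal.div_eq_inv_mul]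
          calc ENNReal.ofReal ((1 / Real.sqrt n) ^ n / M) * ω ^ 2
              = ENNReal.ofReal ((1 / Real.sqrt n) ^ n / M) * ω ^ 2 * ((2 ^ n)⁻¹ * 2 ^ n) := by
                rw [ENNReal.inv_mul_cancel (by positivity) (by finiteness), mul_one]
            _ = _ := by ring
      _ ≤ ω / 2 ^ n * μH[(n : ℝ)] (univ : Set X) := by gcongr

end Pool.Agent.Results.MP_8115c2_gt.LogBoundAllMetrics
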