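import Pool.Agent.Helper924_BV.Pub
import Pool.Agent.Helper924_BV.Gen
import Pool.Agent.Helper924_BV.Norm
import Pool.Agent.Helper924_SB.Pair
import Pool.Agent.Helper924_SB.Labels

/-! # The bound `V_n ≥ (4/π) ω_n² / 2^n`

Every metric on the closed unit ball of `ℝⁿ` which induces the standard topology and dominates the Euclidean distance on the
boundary sphere has Hausdorff volume at least `(4/π) ω_n² / 2^n`. For `n = 2` this number is `π = ω_2`, for `n = 3` it is
`(2/3) ω_3`.

Idea of the proof. Let `f_θ`, `0 ≤ θ < π`, and `g_3, …, g_n` be `1`-Lipschitz extensions of the functions `⟨cos θ e_1 + sin θ e_2, x⟩` and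
`x_3, …, x_n` from the sphere. The maps `(f_θ, f_φ, g_3, …, g_n)` cover the images of the ball under the linear maps of
determinant `sin (φ - θ)`. The sum of their volumes is compared with the Hausdorff measure: at an (approximate) tangent norm
with unit ball `B` one has to bound `∫∫ |det (df_θ, df_φ, dg_3, …, dg_n)| dθ dφ · vol B`. The central section of `B` by the
intersection of the kernels of the `dg_i` is the largest one (Brunn), and in the plane the bound is Minkowski's inequality for the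
mixed area of the section and of the zonoid generated by the `df_θ`. -/

open MeasureTheory Metric Set Filter
open scoped ENNReal NNReal Topology

namespace Pool.Agent.Results.MP_8115c2_gt.PairBoundAllMetrics

open Pool.Agent.Helper924_BV Pool.Agent.Helper924_SB

/-- **Main result.** Let `n ≥ 2` and let `X` be a metric space homeomorphic to the closed unit ball by `h` (that is, a metric
on the ball inducing the standard topology) whose metric dominates the Euclidean distance on the boundary sphere. Then the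
`n`-dimensional Hausdorff measure of `X`, normalised as Lebesgue measure on `ℝⁿ`, is at least `(4/π) ω_n ^ 2 / 2 ^ n`. -/
theorem result (n : ℕ) (hn : 2 ≤ n) (X : Type) [MetricSpace X] [MeasurableSpace X] [BorelSpace X]
    (h : closedBall (0 : EuclideanSpace ℝ (Fin n)) 1 ≃ₜ X) (hd : DominatesOnSphere h) :
    ENNReal.ofReal (4 / (Real.pi * 2 ^ n)) * volume (closedBall (0 : EuclideanSpace ℝ (Fin n)) 1) ^ 2 ≤
      μHE[n] (univ : Set X) := by
  obtain ⟨d, rfl⟩ : ∃ d, n = d + 2 := ⟨n - 2, by omega⟩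
  have hn0 : 0 < d + 2 := by omega
  set ω : ℝ≥0∞ := volume (closedBall (0 : EuclideanSpace ℝ (Fin (d + 2))) 1) with hω
  have hωt : ω ≠ ∞ := measure_closedBall_lt_top.ne
  have hkey : ∀ m : ℕ, 0 < m → ENNReal.ofReal ((∑ kj : Fin m × Fin m,
      |((pairP d m kj.1 kj.2).comp (pairV d m)).det|) / (m : ℝ) ^ 2) * ω ≤ 1 / 2 * μH[((d + 2 : ℕ) : ℝ)] (univ : Set X) := by
    intro m hm
    have hm' : (0 : ℝ) < m := by exact_mod_cast hm
    have H : DetBound (fun _ : Fin m × Fin m => (1 : ℝ≥0)) (fun kj => pairP d m kj.1 kj.2) (2 ^ (d + 1) * (m : ℝ≥0) ^ 2) := by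
      intro G
      simp only [ENNReal.coe_one, one_mul]
      have := det_bound_pair d m G
      push_cast
      exact this
    have h1 := master_all hn0 (fun _ : Fin m × Fin m => (1 : ℝ≥0)) (fun kj => pairP d m kj.1 kj.2) _ H (pairV d m)
      (pairV_norm d m) h hd
    simp only [ENNReal.coe_one, one_mul] at h1
    rw [← hω, ← ENNReal.ofReal_sum_of_nonneg (fun _ _ => abs_nonneg _)] at h1
    have hm2 : ENNReal.ofReal ((m : ℝ) ^ 2) = (m : ℝ≥0∞) ^ 2 := by
      rw [ENNReal.ofReal_pow hm'.le, ENNReal.ofReal_natCast]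
    have hm0 : (m : ℝ≥0∞) ^ 2 ≠ 0 := by
      have : (m : ℝ≥0∞) ≠ 0 := by exact_mod_cast hm.ne'
      positivity
    have hmt : (m : ℝ≥0∞) ^ 2 ≠ ∞ := by finiteness
    rw [ENNReal.ofReal_div_of_pos (by positivity), hm2, ENNReal.div_eq_inv_mul, mul_assoc]
    calc ((m : ℝ≥0∞) ^ 2)⁻¹ * (ENNReal.ofReal (∑ kj : Fin m × Fin m, |((pairP d m kj.1 kj.2).comp (pairV d m)).det|) * ω)
        ≤ ((m : ℝ≥0∞) ^ 2)⁻¹ * (((2 ^ (d + 1) * (m : ℝ≥0) ^ 2 : ℝ≥0) : ℝ≥0∞) * (1 / 2 ^ (d + 2)) *
            μH[((d + 2 : ℕ) : ℝ)] (univ : Set X)) := by gcongr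
      _ = (((m : ℝ≥0∞) ^ 2)⁻¹ * (m : ℝ≥0∞) ^ 2) * (2 ^ (d + 1) * (1 / 2 ^ (d + 2))) *
            μH[((d + 2 : ℕ) : ℝ)] (univ : Set X) := by push_cast; ring
      _ = 1 / 2 * μH[((d + 2 : ℕ) : ℝ)] (univ : Set X) := by
          rw [ENNReal.inv_mul_cancel hm0 hmt, one_mul]
          congr 1
          rw [pow_succ 2 (d + 1), one_div, one_div, ENNReal.mul_inv (by simp) (by simp), ← mul_assoc,
            ENNReal.mul_inv_cancel (by positivity) (by finiteness), one_mul]
  have hlim : Tendsto (fun m : ℕ => ENNReal.ofReal ((∑ kj : Fin m × Fin m,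
      |((pairP d m kj.1 kj.2).comp (pairV d m)).det|) / (m : ℝ) ^ 2) * ω) atTop (𝓝 (ENNReal.ofReal (2 / Real.pi) * ω)) :=
    ENNReal.Tendsto.mul_const ((ENNReal.continuous_ofReal.tendsto _).comp (sum_pairV d)) (Or.inr hωt)
  have h2 : ENNReal.ofReal (2 / Real.pi) * ω ≤ 1 / 2 * μH[((d + 2 : ℕ) : ℝ)] (univ : Set X) :=
    le_of_tendsto hlim (eventually_atTop.2 ⟨1, fun m hm => hkey m hm⟩)
  have h3 : ENNReal.ofReal (4 / Real.pi) * ω ≤ μH[((d + 2 : ℕ) : ℝ)] (univ : Set X) := by
    have h4 : ENNReal.ofReal (4 / Real.pi) = 2 * ENNReal.ofReal (2 / Real.pi) := by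
      rw [show (4 : ℝ) / Real.pi = 2 * (2 / Real.pi) by ring, ENNReal.ofReal_mul (by norm_num)]
      norm_num
    calc ENNReal.ofReal (4 / Real.pi) * ω = 2 * (ENNReal.ofReal (2 / Real.pi) * ω) := by rw [h4]; ring
      _ ≤ 2 * (1 / 2 * μH[((d + 2 : ℕ) : ℝ)] (univ : Set X)) := by gcongr
      _ = μH[((d + 2 : ℕ) : ℝ)] (univ : Set X) := by
          rw [← mul_assoc, one_div, ENNReal.mul_inv_cancel (by norm_num) (by norm_num), one_mul]
  have h5 := muHE_ge hn0 (univ : Set X)
  rw [← hω] at h5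
  refine le_trans ?_ h5
  calc ENNReal.ofReal (4 / (Real.pi * 2 ^ (d + 2))) * ω ^ 2
      = ω / 2 ^ (d + 2) * (ENNReal.ofReal (4 / Real.pi) * ω) := by
        rw [← div_div, ENNReal.ofReal_div_of_pos (by positivity), ENNReal.ofReal_pow (by norm_num),
          ENNReal.ofReal_ofNat, ENNReal.div_eq_inv_mul, ENNReal.div_eq_inv_mul]
        ring
    _ ≤ ω / 2 ^ (d + 2) * μH[((d + 2 : ℕ) : ℝ)] (univ : Set X) := by gcongr

end Pool.Agent.Results.MP_8115c2_gt.PairBoundAllMetrics
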